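import Pool.Agent.W500.CS.Stm

/-!
# B3: if near `x` only one index occurs then the function is smooth near `x` with this index
-/

set_option autoImplicit false

open MeasureTheory Metric Set Filter Topology

namespace Pool.Agent.W418.CQ.Nbr

open Pool.Agent.W500.CS

theorem continuous_gr : Continuous gr := by
  unfold gr
  exact continuous_const.clm_comp (ContinuousLinearMap.mul ℝ ℂ).continuous

/-- the subgradient inequality at a point of differentiability -/
theorem subgrad {D : Set ℂ} {V : ℂ → ℝ} (hV : ConvexOn ℝ D V) {z w : ℂ} (hz : z ∈ D) (hw : w ∈ D)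
    {L : ℂ →L[ℝ] ℝ} (hL : HasFDerivAt V L z) : V z + L (w - z) ≤ V w := by
  have h1 : HasDerivAt (fun t : ℝ => V (z + t • (w - z))) (L (w - z)) 0 :=
    hL.hasLineDerivAt (w - z)
  have h2 := h1.hasDerivWithinAt (s := Ioi 0)
  rw [hasDerivWithinAt_iff_tendsto_slope' (by simp)] at h2
  have h3 : ∀ᶠ t : ℝ in 𝓝[>] 0, slope (fun t : ℝ => V (z + t • (w - z))) 0 t ≤ V w - V z := by
    have h4 : ∀ᶠ t : ℝ in 𝓝[>] 0, t ∈ Ioo (0 : ℝ) 1 := Ioo_mem_nhdsGT one_pos
    filter_upwards [h4] with t ht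
    rw [slope_def_field]
    simp only [zero_smul, add_zero, sub_zero]
    rw [div_le_iff₀ ht.1]
    have h5 := hV.2 hz hw (by linarith [ht.2] : (0 : ℝ) ≤ 1 - t) ht.1.le (by ring)
    have h6 : (1 - t) • z + t • w = z + t • (w - z) := by
      simp only [Complex.real_smul]; push_cast; ring
    rw [h6] at h5
    simp only [smul_eq_mul] at h5
    nlinarith [h5]
  have h7 := le_of_tendsto h2 h3
  linarith

theorem main : S_NBR := by
  intro r W U B hD x hx i hi
  obtain ⟨ε, hε, C, hεW, hconv⟩ := hD.sc x hx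
  obtain ⟨δ, hδ, hδi⟩ := Metric.eventually_nhds_iff_ball.1 hi
  set ρ := min ε δ with hρdef
  have hρ : 0 < ρ := lt_min hε hδ
  set D : Set ℂ := ball x ρ with hDdef
  have hDo : IsOpen D := isOpen_ball
  have hDε : D ⊆ ball x ε := ball_subset_ball (min_le_left _ _)
  have hDδ : D ⊆ ball x δ := ball_subset_ball (min_le_right _ _)
  have hDW : D ⊆ W := hDε.trans hεW
  set V : ℂ → ℝ := fun y => U y + C * ‖y‖ ^ 2 with hVdef
  have hVc : ConvexOn ℝ D V := hconv.subset hDε (convex_ball x ρ)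
  have hVcont : ContinuousOn V D := hVc.continuousOn hDo
  set g : ℂ → (ℂ →L[ℝ] ℝ) := fun y => gr (B i y) + C • (2 • innerSL ℝ y) with hgdef
  have hBc : ContinuousOn (B i) D := (hD.hol i).continuousOn.mono hDW
  have hgcont : ContinuousOn g D := by
    refine ContinuousOn.add (continuous_gr.comp_continuousOn hBc) ?_
    have h1 : Continuous fun y : ℂ => C • (2 • innerSL ℝ y) := by
      have h2 : Continuous fun y : ℂ => innerSL ℝ y := (innerSL ℝ).continuous
      exact (h2.const_smul 2).const_smul C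
    exact h1.continuousOn
  have hsq : ∀ y : ℂ, HasFDerivAt (fun y : ℂ => C * ‖y‖ ^ 2) (C • (2 • innerSL ℝ y)) y := by
    intro y
    exact (hasStrictFDerivAt_norm_sq y).hasFDerivAt.const_mul C
  have hUV : ∀ y, HasFDerivAt U (gr (B i y)) y → HasFDerivAt V (g y) y := by
    intro y hy
    exact hy.add (hsq y)
  have hVU : ∀ y, HasFDerivAt V (g y) y → HasFDerivAt U (gr (B i y)) y := by
    intro y hy
    have h1 := hy.sub (hsq y)
    have h2 : (V - fun y : ℂ => C * ‖y‖ ^ 2) = U := by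
      funext y; simp [hVdef]
    have h3 : g y - C • (2 • innerSL ℝ y) = gr (B i y) := by
      simp [hgdef]
    rw [h2, h3] at h1
    exact h1
  have hdense : Dense {y : ℂ | y ∈ W → ∃ j, HasFDerivAt U (gr (B j y)) y} :=
    Measure.dense_of_ae hD.ae
  have hsub : ∀ z ∈ D, ∀ w ∈ D, V z + g z (w - z) ≤ V w := by
    intro z hz w hw
    by_contra hcon
    rw [not_le] at hcon
    have hc : ContinuousAt (fun z' => V z' + g z' (w - z')) z := by
      have h1 : ContinuousAt V z := hVcont.continuousAt (hDo.mem_nhds hz)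
      have h2 : ContinuousAt g z := hgcont.continuousAt (hDo.mem_nhds hz)
      exact h1.add (h2.clm_apply (by fun_prop))
    have hev : ∀ᶠ z' in 𝓝 z, V w < V z' + g z' (w - z') :=
      hc.eventually (lt_mem_nhds hcon)
    have hev2 : ∀ᶠ z' in 𝓝 z, z' ∈ D := hDo.mem_nhds hz
    obtain ⟨z', hz'1, hz'2⟩ := hdense.inter_nhds_nonempty (hev.and hev2)
    obtain ⟨j, hj⟩ := hz'1 (hDW hz'2.2)
    have hji : j = i := hδi z' (hDδ hz'2.2) j hj
    subst hji
    exact absurd (subgrad hVc hz'2.2 hw (hUV z' hj)) (not_le.2 hz'2.1)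
  have hfin : ∀ z ∈ D, HasFDerivAt V (g z) z := by
    intro z hz
    refine HasFDerivAt.of_isLittleO ?_
    rw [Asymptotics.isLittleO_iff]
    intro c hc
    have h2 : ContinuousAt g z := hgcont.continuousAt (hDo.mem_nhds hz)
    have h3 : ∀ᶠ w in 𝓝 z, dist (g w) (g z) < c := Metric.tendsto_nhds.1 h2 c hc
    have hev2 : ∀ᶠ w in 𝓝 z, w ∈ D := hDo.mem_nhds hz
    filter_upwards [h3, hev2] with w hw1 hw2
    have h4 := hsub z hz w hw2
    have h5 := hsub w hw2 z hz
    have h6 : g w (z - w) = - g w (w - z) := by rw [← map_neg, neg_sub]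
    rw [h6] at h5
    have h7 : (g w - g z) (w - z) ≤ ‖g w - g z‖ * ‖w - z‖ :=
      (le_abs_self _).trans ((g w - g z).le_opNorm (w - z))
    have h8 : ‖g w - g z‖ ≤ c := by rw [← dist_eq_norm]; exact hw1.le
    have h9 : ‖g w - g z‖ * ‖w - z‖ ≤ c * ‖w - z‖ :=
      mul_le_mul_of_nonneg_right h8 (norm_nonneg _)
    rw [sub_apply] at h7
    rw [Real.norm_eq_abs, abs_le]
    constructor
    · have : 0 ≤ c * ‖w - z‖ := by positivity
      linarith
    · linarith
  have hmem : D ∈ 𝓝 x := ball_mem_nhds x hρ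
  filter_upwards [hmem] with y hy
  exact hVU y (hfin y hy)

end Pool.Agent.W418.CQ.Nbr
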